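import Pool.Agent.H254R3.IN.Idem

/-!
# Orthogonal central idempotents and partitions of the set of irreducible characters
-/

set_option autoImplicit false
set_option linter.style.haveILetI false
set_option linter.unusedSectionVars false

open scoped BigOperators Classical
open Pool.Agent.Helper884 Pool.Agent.H254R3.IN

noncomputable section

namespace Pool.Agent.Q99.SC

variable {G : Type} [Group G] [Fintype G]

/-- `f` composed with inversion -/
def fl (f : G → ℂ) (g : G) : ℂ := f g⁻¹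

theorem fl_cl {f : G → ℂ} (hf : IsCl f) : IsCl (fl f) := by
  intro g y
  have e : (y * g * y⁻¹)⁻¹ = y * g⁻¹ * y⁻¹ := by group
  change f (y * g * y⁻¹)⁻¹ = f g⁻¹
  rw [e, hf]

theorem conv_fl (f h : G → ℂ) : conv (fl f) (fl h) = fl (conv h f) := by
  funext g
  unfold conv fl
  refine Fintype.sum_equiv (Equiv.mulLeft g⁻¹) _ _ fun x => ?_
  simp only [Equiv.coe_mulLeft, mul_inv_rev, inv_inv]
  rw [mul_comm]
  congr 2
  group

theorem B_eq (f : G → ℂ) {χ : G → ℂ} (hχ : IsIrr χ) :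
    IC.B f χ = χ 1 * Om (fl f) χ / (Nat.card G : ℂ) := by
  unfold IC.B Om fl
  rw [mul_div_cancel₀ _ hχ.one_ne, div_eq_inv_mul]
  congr 1
  refine Fintype.sum_equiv (Equiv.inv G) _ _ fun x => ?_
  simp

/-- A system of orthogonal central idempotents (up to the factor `|G|`). -/
structure Sys (I : Type) [Fintype I] (e : I → G → ℂ) : Prop where
  /-- class functions -/
  cl : ∀ i, IsCl (e i)
  /-- orthogonality -/
  orth : ∀ i j, i ≠ j → conv (e i) (e j) = 0
  /-- idempotents -/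
  idem : ∀ i, conv (e i) (e i) = fun g => (Nat.card G : ℂ) * e i g
  /-- the sum -/
  sum : ∀ g, ∑ i, e i g = (Nat.card G : ℂ) * dl g
  /-- nonzero -/
  ne : ∀ i, e i ≠ 0

/-- The set of irreducible characters attached to the function `f`. -/
def XX (f : G → ℂ) : Set (G → ℂ) := {χ | IsIrr χ ∧ IC.B f χ ≠ 0}

variable {I : Type} [Fintype I] {e : I → G → ℂ}

theorem cardG_ne : (Nat.card G : ℂ) ≠ 0 := by
  exact_mod_cast Nat.card_pos.ne'

theorem Om_zero (χ : G → ℂ) : Om (0 : G → ℂ) χ = 0 := by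
  unfold Om; simp

theorem fl_zero : fl (0 : G → ℂ) = 0 := rfl

theorem Om_cases (h : Sys I e) (i : I) {χ : G → ℂ} (hχ : IsIrr χ) :
    Om (fl (e i)) χ = 0 ∨ Om (fl (e i)) χ = Nat.card G := by
  have h1 := Om_conv hχ (fl_cl (h.cl i)) (fl_cl (h.cl i))
  rw [conv_fl, h.idem] at h1
  have h2 : Om (fl fun g => (Nat.card G : ℂ) * e i g) χ = Nat.card G * Om (fl (e i)) χ :=
    Om_smul _ _ _
  rw [h2] at h1
  by_cases h3 : Om (fl (e i)) χ = 0
  · left; exact h3
  · right; exact (mul_right_cancel₀ h3 h1).symm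

theorem Om_orth (h : Sys I e) {i j : I} (hij : i ≠ j) {χ : G → ℂ} (hχ : IsIrr χ) :
    Om (fl (e i)) χ * Om (fl (e j)) χ = 0 := by
  rw [← Om_conv hχ (fl_cl (h.cl i)) (fl_cl (h.cl j)), conv_fl, h.orth j i hij.symm, fl_zero,
    Om_zero]

theorem exists_Om (h : Sys I e) {χ : G → ℂ} (hχ : IsIrr χ) : ∃ i, Om (fl (e i)) χ ≠ 0 := by
  by_contra hn
  push Not at hn
  have h1 : ∑ i, Om (fl (e i)) χ = Nat.card G := by
    have h2 : ∑ i, Om (fl (e i)) χ = Om (fun g => (Nat.card G : ℂ) * dl g) χ := by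
      unfold Om fl
      rw [← Finset.sum_div, Finset.sum_comm]
      congr 1
      refine Finset.sum_congr rfl fun g _ => ?_
      rw [← Finset.sum_mul, h.sum]
      congr 2
      unfold dl
      simp only [inv_eq_one]
    rw [h2, Om_smul, Om_dl hχ, mul_one]
  rw [Finset.sum_eq_zero fun i _ => hn i] at h1
  exact cardG_ne (G := G) h1.symm

theorem mem_XX (f : G → ℂ) (χ : G → ℂ) : χ ∈ XX f ↔ IsIrr χ ∧ Om (fl f) χ ≠ 0 := by
  unfold XX
  rw [Set.mem_setOf_eq]
  constructor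
  · rintro ⟨h1, h2⟩
    refine ⟨h1, fun h3 => h2 ?_⟩
    rw [B_eq f h1, h3, mul_zero, zero_div]
  · rintro ⟨h1, h2⟩
    refine ⟨h1, ?_⟩
    rw [B_eq f h1]
    exact div_ne_zero (mul_ne_zero h1.one_ne h2) cardG_ne

theorem B_of_mem (h : Sys I e) (i : I) {χ : G → ℂ} (hχ : χ ∈ XX (e i)) :
    IC.B (e i) χ = χ 1 := by
  rw [mem_XX] at hχ
  rw [B_eq _ hχ.1, (Om_cases h i hχ.1).resolve_left hχ.2, mul_div_assoc, div_self cardG_ne, mul_one]

theorem XX_disj (h : Sys I e) {i j : I} {χ : G → ℂ} (h1 : χ ∈ XX (e i)) (h2 : χ ∈ XX (e j)) :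
    i = j := by
  by_contra hij
  rw [mem_XX] at h1 h2
  exact (mul_ne_zero h1.2 h2.2) (Om_orth h hij h1.1)

theorem XX_cover (h : Sys I e) {χ : G → ℂ} (hχ : IsIrr χ) : ∃ i, χ ∈ XX (e i) := by
  obtain ⟨i, hi⟩ := exists_Om h hχ
  exact ⟨i, (mem_XX _ _).mpr ⟨hχ, hi⟩⟩

theorem XX_irr {f χ : G → ℂ} (h : χ ∈ XX f) : IsIrr χ := h.1

theorem XX_finite (f : G → ℂ) : (XX f).Finite :=
  IC.irr_finite.subset fun _ h => h.1

/-- `e i = ∑ ψ(1) ψ` over the characters attached to `e i`. -/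
theorem e_eq (h : Sys I e) (i : I) (g : G) : e i g = ∑ᶠ ψ ∈ XX (e i), ψ 1 * ψ g := by
  have h1 := congrFun (IC.expand (e i) (h.cl i)) g
  rw [finsum_mem_eq_finite_toFinset_sum _ (XX_finite (e i)), h1]
  simp only [Finset.sum_apply, Pi.smul_apply, smul_eq_mul]
  symm
  apply Finset.sum_subset_zero_on_sdiff
  · intro ψ hψ
    rw [Set.Finite.mem_toFinset] at hψ
    exact IC.mem_Irr.mpr hψ.1
  · intro ψ hψ
    rw [Finset.mem_sdiff, Set.Finite.mem_toFinset] at hψ
    have : IC.B (e i) ψ = 0 := by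
      by_contra hne
      exact hψ.2 ⟨IC.mem_Irr.mp hψ.1, hne⟩
    rw [this, zero_mul]
  · intro ψ hψ
    rw [Set.Finite.mem_toFinset] at hψ
    rw [B_of_mem h i hψ]

theorem XX_nonempty (h : Sys I e) (i : I) : (XX (e i)).Nonempty := by
  by_contra hn
  rw [Set.not_nonempty_iff_eq_empty] at hn
  apply h.ne i
  funext g
  rw [e_eq h i g, hn]
  simp

/-- Two irreducible characters, one a multiple of the other, are equal. -/
theorem irr_eq_of_smul {χ ψ : G → ℂ} (h1 : IsIrr χ) (h2 : IsIrr ψ) {c : ℂ}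
    (h : ∀ g, χ g = c * ψ g) : χ = ψ := by
  by_contra hne
  have h3 : IC.B χ ψ = 0 := by rw [IC.B_irr h1 h2, if_neg hne]
  have h4 : IC.B χ ψ = c := by
    have : χ = c • ψ := by funext g; exact h g
    rw [this, IC.B_smul_left, IC.B_irr h2 h2, if_pos rfl, mul_one]
  rw [h4] at h3
  have := h 1
  rw [h3, zero_mul] at this
  exact h1.one_ne this

/-- Convolution of an irreducible character with a class function. -/
theorem conv_irr {χ : G → ℂ} (hχ : IsIrr χ) {f : G → ℂ} (hf : IsCl f) (g : G) :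
    conv χ f g = Om (fl f) χ * χ g := by
  obtain ⟨V, _, _, _, ρ, hr, rfl⟩ := hχ
  have h1 := class_scalar ρ hr _ (fl_cl hf)
  have h2 : conv ρ.character f g = ∑ y, fl f y * ρ.character (g * y) := by
    unfold conv fl
    refine Fintype.sum_equiv (Equiv.mulLeft g⁻¹) _ _ fun x => ?_
    simp only [Equiv.coe_mulLeft, mul_inv_rev, inv_inv, mul_inv_cancel_left]
    ring
  have h3 : ∑ y, fl f y * ρ.character (g * y) =
      LinearMap.trace ℂ V (ρ g * ∑ y, fl f y • ρ y) := by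
    rw [Finset.mul_sum, map_sum]
    refine Finset.sum_congr rfl fun y _ => ?_
    rw [mul_smul_comm, map_smul, smul_eq_mul, ← map_mul]
    rfl
  have h4 : Om (fl f) ρ.character = (∑ y, fl f y * ρ.character y) / ρ.character 1 := rfl
  rw [h2, h3, h1, ← h4]
  have h5 : ρ g * (Om (fl f) ρ.character • (LinearMap.id : V →ₗ[ℂ] V)) =
      Om (fl f) ρ.character • ρ g := by
    ext v
    simp only [Module.End.mul_apply, LinearMap.smul_apply, LinearMap.id_apply, map_smul]
  rw [h5, map_smul, smul_eq_mul]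
  rfl

/-- Convolution with `e i` is multiplication by `|G|` on its own characters. -/
theorem conv_e (h : Sys I e) (i : I) {χ : G → ℂ} (hχ : χ ∈ XX (e i)) (g : G) :
    conv χ (e i) g = (Nat.card G : ℂ) * χ g := by
  rw [mem_XX] at hχ
  rw [conv_irr hχ.1 (h.cl i), (Om_cases h i hχ.1).resolve_left hχ.2]

end Pool.Agent.Q99.SC
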