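import Pool.Agent.Q99.SC.Four

/-!
# Single-box supercharacters are irreducible
-/

set_option autoImplicit false
set_option linter.style.haveILetI false

open scoped BigOperators Classical
open Pool.Agent.Helper884 Pool.Agent.H254R3.IN

noncomputable section

namespace Pool.Agent.Q99.SC

variable {n : ℕ} {F : Type} [Field F] [Finite F]

/-- The functional `y ↦ a y_{ij}` on `𝔫`. -/
def bx (i j : Fin n) (a : F) : DD n F where
  toFun y := a * y.1 i j
  map_add' x y := by
    change a * (x.1 i j + y.1 i j) = _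
    rw [mul_add]
  map_smul' c x := by
    change a * (c * x.1 i j) = c * (a * x.1 i j)
    ring

theorem bx_tw (i j : Fin n) (a : F) (u v : UT n F) (y : NN n F) :
    (bx i j a ∘ₗ tw u v) y = a * ∑ l, (∑ k, mt u i k * y.1 k l) * mt v l j := by
  change a * (mt u * y.1 * mt v) i j = _
  rw [Matrix.mul_apply]
  simp only [Matrix.mul_apply]

theorem bx_congr {i j : Fin n} (a : F) (u v u' v' : UT n F) (h1 : ∀ k, k < j → mt u i k = mt u' i k)
    (h2 : ∀ l, i < l → mt v l j = mt v' l j) : bx i j a ∘ₗ tw u v = bx i j a ∘ₗ tw u' v' := by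
  apply LinearMap.ext
  intro y
  rw [bx_tw, bx_tw]
  congr 1
  refine Finset.sum_congr rfl fun l _ => ?_
  rcases le_or_gt l i with hl | hl
  · have h3 : ∀ w : UT n F, ∑ k, mt w i k * y.1 k l = 0 := by
      intro w
      apply Finset.sum_eq_zero
      intro k _
      rcases lt_or_ge k i with hk | hk
      · rw [mt_low w hk, zero_mul]
      · rw [y.2 k l (hl.trans hk), mul_zero]
    rw [h3, h3, zero_mul, zero_mul]
  · rw [h2 l hl]
    rcases lt_or_ge j l with hj | hj
    · rw [mt_low v' hj, mul_zero, mul_zero]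
    · congr 1
      refine Finset.sum_congr rfl fun k _ => ?_
      rcases lt_or_ge k l with hk | hk
      · rw [h1 k (hk.trans_le hj)]
      · rw [y.2 k l hk, mul_zero, mul_zero]

/-- The matrix with the entries of row `i` of `u` between the columns `i` and `j`. -/
def rowm (i j : Fin n) (u : UT n F) : NN n F :=
  ⟨fun r c => if r = i ∧ i < c ∧ c < j then mt u i c else 0, fun r c h => by
    apply if_neg
    rintro ⟨h1, h2, -⟩
    rw [h1] at h
    exact absurd h2 (not_lt.mpr h)⟩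

/-- The matrix with the entries of column `j` of `v` between the rows `i` and `j`. -/
def colm (i j : Fin n) (v : UT n F) : NN n F :=
  ⟨fun r c => if c = j ∧ i < r ∧ r < j then mt v r j else 0, fun r c h => by
    apply if_neg
    rintro ⟨h1, -, h2⟩
    rw [h1] at h
    exact absurd h2 (not_lt.mpr h)⟩

theorem rowm_apply (i j : Fin n) (u : UT n F) (r c : Fin n) :
    (rowm i j u).1 r c = if r = i ∧ i < c ∧ c < j then mt u i c else 0 := rfl

theorem colm_apply (i j : Fin n) (u : UT n F) (r c : Fin n) :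
    (colm i j u).1 r c = if c = j ∧ i < r ∧ r < j then mt u r j else 0 := rfl

theorem rowm_sq (i j : Fin n) (u : UT n F) : (rowm i j u).1 * (rowm i j u).1 = 0 := by
  ext r c
  rw [Matrix.mul_apply]
  apply Finset.sum_eq_zero
  intro k _
  rw [rowm_apply, rowm_apply]
  by_cases h : r = i ∧ i < k ∧ k < j
  · rw [if_neg (c := k = i ∧ i < c ∧ c < j) (fun h2 => absurd h.2.1 (by rw [h2.1]; exact lt_irrefl _)),
      mul_zero]
  · rw [if_neg h, zero_mul]

theorem colm_sq (i j : Fin n) (u : UT n F) : (colm i j u).1 * (colm i j u).1 = 0 := by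
  ext r c
  rw [Matrix.mul_apply]
  apply Finset.sum_eq_zero
  intro k _
  rw [colm_apply, colm_apply]
  by_cases h : c = j ∧ i < k ∧ k < j
  · rw [if_neg (c := k = j ∧ i < r ∧ r < j) (fun h2 => absurd h.2.2 (by rw [h2.1]; exact lt_irrefl _)),
      zero_mul]
  · rw [if_neg h, mul_zero]

theorem mk_inv_of_sq {x : NN n F} (h : x.1 * x.1 = 0) : (mk x)⁻¹ = mk (-x) := by
  rw [inv_eq_iff_mul_eq_one]
  apply mt_inj
  rw [mt_mul, mt_mk, mt_mk, mt_one]
  change (1 + x.1) * (1 + -x.1) = 1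
  rw [mul_add, add_mul, add_mul, mul_neg, mul_neg, h]
  simp

/-- Two-sided translates of `y ↦ a y_{ij}` are conjugates. -/
theorem bx_conj {i j : Fin n} (hij : i < j) (a : F) (u v : UT n F) :
    ∃ h : UT n F, bx i j a ∘ₗ tw u v = bx i j a ∘ₗ tw h h⁻¹ := by
  refine ⟨mk (rowm i j u) * mk (-colm i j v), ?_⟩
  have hinv : (mk (rowm i j u) * mk (-colm i j v))⁻¹ = mk (colm i j v) * mk (-rowm i j u) := by
    rw [mul_inv_rev, mk_inv_of_sq (rowm_sq i j u), ← mk_inv_of_sq (colm_sq i j v), inv_inv]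
  rw [hinv]
  apply bx_congr
  · intro k hk
    rw [mt_mul, mt_mk, mt_mk]
    change mt u i k = ((1 + (rowm i j u).1) * (1 + -(colm i j v).1)) i k
    rw [mul_add, mul_one, mul_neg, Matrix.add_apply, Matrix.neg_apply, Matrix.mul_apply]
    have h1 : ∑ m, (1 + (rowm i j u).1) i m * (colm i j v).1 m k = 0 := by
      apply Finset.sum_eq_zero
      intro m _
      rw [colm_apply, if_neg (fun h => absurd hk (by rw [h.1]; exact lt_irrefl _)), mul_zero]
    rw [h1, neg_zero, add_zero, Matrix.add_apply, rowm_apply]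
    rcases lt_trichotomy k i with h | h | h
    · rw [mt_low u h, Matrix.one_apply_ne h.ne', if_neg (fun h2 => absurd h2.2.1 h.not_gt), add_zero]
    · subst h
      rw [mt_diag, Matrix.one_apply_eq, if_neg (fun h2 => absurd h2.2.1 (lt_irrefl _)), add_zero]
    · rw [Matrix.one_apply_ne h.ne, if_pos ⟨rfl, h, hk⟩, zero_add]
  · intro l hl
    rw [mt_mul, mt_mk, mt_mk]
    change mt v l j = ((1 + (colm i j v).1) * (1 + -(rowm i j u).1)) l j
    rw [mul_add, mul_one, mul_neg, Matrix.add_apply, Matrix.neg_apply, Matrix.mul_apply]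
    have h1 : ∑ m, (1 + (colm i j v).1) l m * (rowm i j u).1 m j = 0 := by
      apply Finset.sum_eq_zero
      intro m _
      rw [rowm_apply, if_neg (fun h => absurd h.2.2 (lt_irrefl _)), mul_zero]
    rw [h1, neg_zero, add_zero, Matrix.add_apply, colm_apply]
    rcases lt_trichotomy l j with h | h | h
    · rw [Matrix.one_apply_ne h.ne, if_pos ⟨rfl, hl, h⟩, zero_add]
    · subst h
      rw [mt_diag, Matrix.one_apply_eq, if_neg (fun h2 => absurd h2.2.2 (lt_irrefl _)), add_zero]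
    · rw [mt_low v h, Matrix.one_apply_ne h.ne', if_neg (fun h2 => absurd h2.2.2 h.not_gt), add_zero]

theorem cf_conj (θ : AddChar F ℂ) {φ : UT n F → ℂ} (hφ : IsCl φ) (μ : DD n F) (h : UT n F) :
    cf θ φ (μ ∘ₗ tw h h⁻¹) = cf θ φ μ := by
  unfold cf
  refine Fintype.sum_equiv (MulAut.conj h).toEquiv _ _ fun x => ?_
  have e1 : (MulAut.conj h).toEquiv x = h * x * h⁻¹ := by simp
  rw [e1, hφ, LinearMap.comp_apply, dl_conj]

/-- If the orbit of `μ` is a single conjugation orbit, then there is only one irreducible character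
in the corresponding supercharacter. -/
theorem singleton_of_conj {θ : AddChar F ℂ} (hθ : θ ≠ 1) (μ : DD n F)
    (hμ : ∀ u v : UT n F, ∃ h : UT n F, μ ∘ₗ tw u v = μ ∘ₗ tw h h⁻¹) :
    ∃ ψ : UT n F → ℂ, IsIrr ψ ∧ XX (ff θ (qD μ)) = {ψ} ∧ ∀ g, ff θ (qD μ) g = ψ 1 * ψ g := by
  have hS := sys_ff (n := n) hθ
  have key : ∀ ψ ∈ XX (ff θ (qD μ)), ∀ g, (Nat.card (UT n F) : ℂ) * ψ g =
      cf θ ψ μ * ff θ (qD μ) g := by
    intro ψ hψ g
    rw [← conv_e hS _ hψ, conv_ff, ff, Finset.mul_sum]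
    refine Finset.sum_congr rfl fun ν hν => ?_
    rw [mem_oD] at hν
    obtain ⟨u, v, rfl⟩ := qD_eq.mp hν.symm
    obtain ⟨h, hh⟩ := hμ u v
    congr 1
    rw [hh]
    exact cf_conj θ (IC.IsIrrChar.isClass hψ.1) μ h
  obtain ⟨ψ, hψ⟩ := XX_nonempty hS (qD μ)
  have hG : (Nat.card (UT n F) : ℂ) ≠ 0 := cardG_ne
  have hc : cf θ ψ μ ≠ 0 := by
    intro h0
    have h1 := key ψ hψ 1
    rw [h0, zero_mul] at h1
    exact (mul_ne_zero hG (IsIrr.one_ne hψ.1)) h1
  have hX : XX (ff θ (qD μ)) = {ψ} := by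
    ext ψ'
    rw [Set.mem_singleton_iff]
    constructor
    · intro hψ'
      apply irr_eq_of_smul hψ'.1 hψ.1 (c := cf θ ψ' μ / cf θ ψ μ)
      intro g
      have h1 := key ψ' hψ' g
      have h2 := key ψ hψ g
      apply mul_left_cancel₀ hG
      rw [h1, mul_left_comm, h2, ← mul_assoc, div_mul_cancel₀ _ hc]
    · rintro rfl
      exact hψ
  refine ⟨ψ, hψ.1, hX, ?_⟩
  intro g
  rw [e_eq hS (qD μ) g, hX]
  simp

theorem box_irr {θ : AddChar F ℂ} (hθ : θ ≠ 1) {i j : Fin n} (hij : i < j) (a : F) :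
    ∃ ψ : UT n F → ℂ, IsIrr ψ ∧ XX (ff θ (qD (bx i j a))) = {ψ} ∧
      ∀ g, ff θ (qD (bx i j a)) g = ψ 1 * ψ g :=
  singleton_of_conj hθ _ (bx_conj hij a)

end Pool.Agent.Q99.SC
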