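import Pool.Agent.Q99.SC.Four

/-!
# There are as many two-sided orbits on `𝔫` as on `𝔫^*`
-/

set_option autoImplicit false
set_option linter.style.haveILetI false

open scoped BigOperators Classical

noncomputable section

namespace Pool.Agent.Q99.SC

variable {n : ℕ} {F : Type} [Field F] [Finite F]

/-- The superclass relation. -/
def relK (g h : UT n F) : Prop := ∃ u v : UT n F, dl h = tw u v (dl g)

/-- The setoid of the superclasses. -/
def stK (n : ℕ) (F : Type) [Field F] [Finite F] : Setoid (UT n F) where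
  r := relK
  iseqv :=
    { refl := fun g => ⟨1, 1, (tw_one _).symm⟩
      symm := by
        rintro g h ⟨u, v, e⟩
        exact ⟨u⁻¹, v⁻¹, by rw [e, tw_inv_left]⟩
      trans := by
        rintro g h k ⟨u, v, e⟩ ⟨u', v', e'⟩
        exact ⟨u' * u, v * v', by rw [e', e, tw_tw]⟩ }

/-- The superclasses. -/
abbrev QK (n : ℕ) (F : Type) [Field F] [Finite F] : Type := Quotient (stK n F)

instance fQK : Fintype (QK n F) := Fintype.ofFinite _

/-- The superclass of an element. -/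
def qK (g : UT n F) : QK n F := Quotient.mk (stK n F) g

theorem qK_eq {g h : UT n F} : qK g = qK h ↔ relK g h := Quotient.eq (r := stK n F)

theorem qK_mk_tw (u v : UT n F) (x : NN n F) : qK (mk (tw u v x)) = qK (mk x) :=
  (qK_eq.mpr ⟨u, v, by rw [dl_mk, dl_mk]⟩).symm

variable {θ : AddChar F ℂ}

/-- From functions on the orbits of `𝔫^*` to functions on the superclasses. -/
def Psi (θ : AddChar F ℂ) : (QD n F → ℂ) →ₗ[ℂ] (QK n F → ℂ) where
  toFun c q := Quotient.lift (fun g => ∑ ν : DD n F, c (qD ν) * θ (ν (dl g))) (by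
    rintro g h ⟨u, v, e⟩
    rw [e]
    refine (Fintype.sum_equiv ⟨fun ν => ν ∘ₗ tw u⁻¹ v⁻¹, fun ν => ν ∘ₗ tw u v, fun ν => by
      change (ν ∘ₗ tw u⁻¹ v⁻¹) ∘ₗ tw u v = ν
      rw [comp_tw, inv_mul_cancel, mul_inv_cancel, comp_one], fun ν => by
      change (ν ∘ₗ tw u v) ∘ₗ tw u⁻¹ v⁻¹ = ν
      rw [comp_tw, mul_inv_cancel, inv_mul_cancel, comp_one]⟩ _ _ fun ν => ?_)
    change c (qD ν) * θ (ν (dl g)) = c (qD (ν ∘ₗ tw u⁻¹ v⁻¹)) * θ ((ν ∘ₗ tw u⁻¹ v⁻¹) (tw u v (dl g)))
    rw [qD_tw, LinearMap.comp_apply, tw_inv_left]) q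
  map_add' c d := by
    funext q
    obtain ⟨g, rfl⟩ := Quotient.exists_rep q
    change ∑ ν : DD n F, (c (qD ν) + d (qD ν)) * θ (ν (dl g)) =
      ∑ ν : DD n F, c (qD ν) * θ (ν (dl g)) + ∑ ν : DD n F, d (qD ν) * θ (ν (dl g))
    rw [← Finset.sum_add_distrib]
    exact Finset.sum_congr rfl fun ν _ => by ring
  map_smul' a c := by
    funext q
    obtain ⟨g, rfl⟩ := Quotient.exists_rep q
    change ∑ ν : DD n F, (a * c (qD ν)) * θ (ν (dl g)) = a * ∑ ν : DD n F, c (qD ν) * θ (ν (dl g))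
    rw [Finset.mul_sum]
    exact Finset.sum_congr rfl fun ν _ => by ring

theorem Psi_apply (c : QD n F → ℂ) (g : UT n F) :
    Psi θ c (qK g) = ∑ ν : DD n F, c (qD ν) * θ (ν (dl g)) := rfl

theorem Psi_inj (hθ : θ ≠ 1) : Function.Injective (Psi (n := n) θ) := by
  rw [← LinearMap.ker_eq_bot, LinearMap.ker_eq_bot']
  intro c hc
  funext q
  obtain ⟨κ, rfl⟩ := Quotient.exists_rep q
  have h1 : ∑ g : UT n F, Psi θ c (qK g) * θ (-κ (dl g)) = 0 := by
    apply Finset.sum_eq_zero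
    intro g _
    rw [hc]
    simp
  simp only [Psi_apply, Finset.sum_mul] at h1
  rw [Finset.sum_comm] at h1
  have h2 : ∀ ν : DD n F, ∑ g : UT n F, c (qD ν) * θ (ν (dl g)) * θ (-κ (dl g)) =
      if ν = κ then c (qD ν) * (Nat.card (UT n F) : ℂ) else 0 := by
    intro ν
    have h3 := sum_UT fun x : NN n F => c (qD ν) * θ (ν x) * θ (-κ x)
    have h4 : ∀ x : NN n F, c (qD ν) * θ (ν x) * θ (-κ x) = c (qD ν) * θ ((ν - κ) x) := by
      intro x
      rw [mul_assoc, ← AddChar.map_add_eq_mul, LinearMap.sub_apply, sub_eq_add_neg]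
    rw [h3]
    simp only [h4]
    rw [← Finset.mul_sum, sum_NN hθ]
    simp only [sub_eq_zero]
    split_ifs <;> simp
  rw [Finset.sum_congr rfl fun ν _ => h2 ν, Finset.sum_ite_eq' Finset.univ κ,
    if_pos (Finset.mem_univ κ)] at h1
  exact (mul_eq_zero.mp h1).resolve_right cardG_ne

/-- From functions on the superclasses to functions on the orbits of `𝔫^*`. -/
def Phi (θ : AddChar F ℂ) : (QK n F → ℂ) →ₗ[ℂ] (QD n F → ℂ) where
  toFun c q := Quotient.lift (fun μ : DD n F => ∑ x : NN n F, c (qK (mk x)) * θ (μ x)) (by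
    rintro μ ν ⟨u, v, rfl⟩
    refine (Fintype.sum_equiv ⟨fun x => tw u⁻¹ v⁻¹ x, fun x => tw u v x, fun x =>
      tw_inv_right u v x, fun x => tw_inv_left u v x⟩ _ _ fun x => ?_)
    change c (qK (mk x)) * θ (μ x) = c (qK (mk (tw u⁻¹ v⁻¹ x))) * θ ((μ ∘ₗ tw u v) (tw u⁻¹ v⁻¹ x))
    rw [qK_mk_tw, LinearMap.comp_apply, tw_inv_right]) q
  map_add' c d := by
    funext q
    obtain ⟨μ, rfl⟩ := Quotient.exists_rep q
    change ∑ x : NN n F, (c (qK (mk x)) + d (qK (mk x))) * θ (μ x) =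
      ∑ x : NN n F, c (qK (mk x)) * θ (μ x) + ∑ x : NN n F, d (qK (mk x)) * θ (μ x)
    rw [← Finset.sum_add_distrib]
    exact Finset.sum_congr rfl fun x _ => by ring
  map_smul' a c := by
    funext q
    obtain ⟨μ, rfl⟩ := Quotient.exists_rep q
    change ∑ x : NN n F, (a * c (qK (mk x))) * θ (μ x) =
      a * ∑ x : NN n F, c (qK (mk x)) * θ (μ x)
    rw [Finset.mul_sum]
    exact Finset.sum_congr rfl fun ν _ => by ring

theorem Phi_apply (c : QK n F → ℂ) (μ : DD n F) :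
    Phi θ c (qD μ) = ∑ x : NN n F, c (qK (mk x)) * θ (μ x) := rfl

theorem Phi_inj (hθ : θ ≠ 1) : Function.Injective (Phi (n := n) θ) := by
  rw [← LinearMap.ker_eq_bot, LinearMap.ker_eq_bot']
  intro c hc
  funext q
  obtain ⟨g, rfl⟩ := Quotient.exists_rep q
  have h1 : ∑ μ : DD n F, Phi θ c (qD μ) * θ (-μ (dl g)) = 0 := by
    apply Finset.sum_eq_zero
    intro g _
    rw [hc]
    simp
  simp only [Phi_apply, Finset.sum_mul] at h1
  rw [Finset.sum_comm] at h1
  have h2 : ∀ x : NN n F, ∑ μ : DD n F, c (qK (mk x)) * θ (μ x) * θ (-μ (dl g)) =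
      if x = dl g then c (qK (mk x)) * (Nat.card (UT n F) : ℂ) else 0 := by
    intro x
    have h4 : ∀ μ : DD n F, c (qK (mk x)) * θ (μ x) * θ (-μ (dl g)) =
        c (qK (mk x)) * θ (μ (x - dl g)) := by
      intro μ
      rw [mul_assoc, ← AddChar.map_add_eq_mul, map_sub, sub_eq_add_neg]
    simp only [h4]
    rw [← Finset.mul_sum, sum_DD hθ]
    simp only [sub_eq_zero]
    split_ifs <;> simp
  rw [Finset.sum_congr rfl fun ν _ => h2 ν, Finset.sum_ite_eq' Finset.univ (dl g),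
    if_pos (Finset.mem_univ _), mk_dl] at h1
  exact (mul_eq_zero.mp h1).resolve_right cardG_ne

theorem card_QD_eq {θ : AddChar F ℂ} (hθ : θ ≠ 1) : Nat.card (QD n F) = Nat.card (QK n F) := by
  have h1 := LinearMap.finrank_le_finrank_of_injective (Psi_inj (n := n) hθ)
  have h2 := LinearMap.finrank_le_finrank_of_injective (Phi_inj (n := n) hθ)
  rw [Module.finrank_fintype_fun_eq_card, Module.finrank_fintype_fun_eq_card] at h1 h2
  rw [Nat.card_eq_fintype_card, Nat.card_eq_fintype_card]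
  exact le_antisymm h1 h2

end Pool.Agent.Q99.SC
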