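import Pool.Agent.Q99.SC.UT

/-!
# Reduction of matrices by two-sided multiplication with unitriangular matrices
-/

set_option autoImplicit false

open scoped BigOperators Classical

noncomputable section

namespace Pool.Agent.Q99.SC

variable {n : ℕ} {F : Type} [Field F] [Finite F]

/-- At most one nonzero entry in each row and each column, as far as the first `m` columns are
concerned. -/
def Mono (m : ℕ) (z : Matrix (Fin n) (Fin n) F) : Prop :=
  (∀ k l l' : Fin n, l.val < m → l'.val < m → z k l ≠ 0 → z k l' ≠ 0 → l = l') ∧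
    ∀ k k' l : Fin n, l.val < m → z k l ≠ 0 → z k' l ≠ 0 → k = k'

/-- clearing the rows -/
theorem stepA {m : ℕ} (hm : m < n) (z : Matrix (Fin n) (Fin n) F) (hz : Mono m z) :
    ∃ v : UT n F, (∀ k s : Fin n, s.val < m → (z * mt v) k s = z k s) ∧
      ∀ k : Fin n, (∃ r : Fin n, r.val < m ∧ z k r ≠ 0) → (z * mt v) k ⟨m, hm⟩ = 0 := by
  let c : Fin n := ⟨m, hm⟩
  let d : Fin n → F := fun r => if h : ∃ k, z k r ≠ 0 then -z h.choose c / z h.choose r else 0
  let V : NN n F := ⟨fun r s => if s = c ∧ r.val < m then d r else 0, fun r s h => by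
    apply if_neg
    rintro ⟨rfl, h2⟩
    exact absurd (h : m ≤ r.val) (not_le.mpr h2)⟩
  refine ⟨mk V, ?_, ?_⟩
  · intro k s hs
    rw [mt_mk, mul_add, mul_one, Matrix.add_apply, Matrix.mul_apply, Finset.sum_eq_zero, add_zero]
    intro r _
    change z k r * (if s = c ∧ r.val < m then d r else 0) = 0
    rw [if_neg, mul_zero]
    rintro ⟨rfl, -⟩
    exact lt_irrefl _ hs
  · rintro k ⟨r, hr, hkr⟩
    change (z * mt (mk V)) k c = 0
    rw [mt_mk, mul_add, mul_one, Matrix.add_apply, Matrix.mul_apply, Finset.sum_eq_single r]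
    · change z k c + z k r * (if c = c ∧ r.val < m then d r else 0) = 0
      rw [if_pos ⟨rfl, hr⟩]
      have hex : ∃ k, z k r ≠ 0 := ⟨k, hkr⟩
      have hk : hex.choose = k := hz.2 _ _ r hr hex.choose_spec hkr
      have hd : d r = -z k c / z k r := by
        change (if h : ∃ k, z k r ≠ 0 then -z h.choose c / z h.choose r else 0) = _
        rw [dif_pos hex, hk]
      rw [hd, mul_div_cancel₀ _ hkr, add_neg_cancel]
    · intro s _ hs
      change z k s * (if c = c ∧ s.val < m then d s else 0) = 0
      by_cases h : s.val < m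
      · have : z k s = 0 := by
          by_contra hne
          exact hs (hz.1 k s r h hr hne hkr)
        rw [this, zero_mul]
      · rw [if_neg (fun h2 => h h2.2), mul_zero]
    · intro h; exact absurd (Finset.mem_univ _) h

/-- clearing the column -/
theorem stepB {m : ℕ} (hm : m < n) (z : Matrix (Fin n) (Fin n) F) (hz : Mono m z)
    (hc : ∀ k : Fin n, (∃ r : Fin n, r.val < m ∧ z k r ≠ 0) → z k ⟨m, hm⟩ = 0) :
    ∃ u : UT n F, Mono (m + 1) (mt u * z) := by
  let c : Fin n := ⟨m, hm⟩
  by_cases h0 : ∀ k, z k c = 0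
  · refine ⟨1, ?_⟩
    rw [mt_one, one_mul]
    constructor
    · intro k l l' hl hl' h1 h2
      have hl2 : l.val < m := by
        rcases Nat.lt_succ_iff_lt_or_eq.mp hl with h | h
        · exact h
        · exact absurd (h0 k) (by rwa [show c = l from Fin.ext h.symm])
      have hl2' : l'.val < m := by
        rcases Nat.lt_succ_iff_lt_or_eq.mp hl' with h | h
        · exact h
        · exact absurd (h0 k) (by rwa [show c = l' from Fin.ext h.symm])
      exact hz.1 k l l' hl2 hl2' h1 h2
    · intro k k' l hl h1 h2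
      have hl2 : l.val < m := by
        rcases Nat.lt_succ_iff_lt_or_eq.mp hl with h | h
        · exact h
        · exact absurd (h0 k) (by rwa [show c = l from Fin.ext h.symm])
      exact hz.2 k k' l hl2 h1 h2
  · push Not at h0
    obtain ⟨k0, hk0, hmax⟩ : ∃ k0, z k0 c ≠ 0 ∧ ∀ k, k0 < k → z k c = 0 := by
      let S : Finset (Fin n) := Finset.univ.filter fun k => z k c ≠ 0
      have hS : S.Nonempty := by
        obtain ⟨k, hk⟩ := h0
        exact ⟨k, by simp [S, hk]⟩
      refine ⟨S.max' hS, ?_, ?_⟩
      · have := S.max'_mem hS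
        simp only [S, Finset.mem_filter] at this
        exact this.2
      · intro k hk
        by_contra hne
        have : k ∈ S := by simp [S, hne]
        exact absurd (S.le_max' k this) (not_le.mpr hk)
    let W : NN n F := ⟨fun r s => if s = k0 ∧ r < k0 then -z r c / z k0 c else 0, fun r s h => by
      apply if_neg
      rintro ⟨rfl, h2⟩
      exact absurd h (not_le.mpr h2)⟩
    have hW : ∀ r s, (mt (mk W) * z) r s = z r s + (if r < k0 then -z r c / z k0 c * z k0 s else 0) := by
      intro r s
      rw [mt_mk, add_mul, one_mul, Matrix.add_apply, Matrix.mul_apply, Finset.sum_eq_single k0]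
      · congr 1
        change (if k0 = k0 ∧ r < k0 then -z r c / z k0 c else 0) * z k0 s = _
        by_cases h : r < k0
        · rw [if_pos ⟨rfl, h⟩, if_pos h]
        · rw [if_neg (fun h2 => h h2.2), if_neg h, zero_mul]
      · intro t _ ht
        change (if t = k0 ∧ r < k0 then -z r c / z k0 c else 0) * z t s = _
        rw [if_neg (fun h2 => ht h2.1), zero_mul]
      · intro h; exact absurd (Finset.mem_univ _) h
    have hrow : ∀ s : Fin n, s.val < m → z k0 s = 0 := by
      intro s hs
      by_contra hne
      exact hk0 (hc k0 ⟨s, hs, hne⟩)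
    have hlt : ∀ r s, s.val < m → (mt (mk W) * z) r s = z r s := by
      intro r s hs
      rw [hW, hrow s hs, mul_zero]
      simp
    have hcol : ∀ r, (mt (mk W) * z) r c ≠ 0 → r = k0 := by
      intro r hr
      by_contra hne
      apply hr
      rw [hW]
      rcases lt_or_gt_of_ne hne with h | h
      · rw [if_pos h, div_mul_cancel₀ _ hk0, add_neg_cancel]
      · rw [if_neg h.not_gt, hmax r h, add_zero]
    refine ⟨mk W, ?_, ?_⟩
    · intro k l l' hl hl' h1 h2
      rcases Nat.lt_succ_iff_lt_or_eq.mp hl with h | h <;>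
        rcases Nat.lt_succ_iff_lt_or_eq.mp hl' with h' | h'
      · rw [hlt k l h] at h1
        rw [hlt k l' h'] at h2
        exact hz.1 k l l' h h' h1 h2
      · exfalso
        have e : l' = c := Fin.ext h'
        rw [e] at h2
        have := hcol k h2
        subst this
        rw [hlt k l h] at h1
        exact h1 (hrow l h)
      · exfalso
        have e : l = c := Fin.ext h
        rw [e] at h1
        have := hcol k h1
        subst this
        rw [hlt k l' h'] at h2
        exact h2 (hrow l' h')
      · exact Fin.ext (h.trans h'.symm)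
    · intro k k' l hl h1 h2
      rcases Nat.lt_succ_iff_lt_or_eq.mp hl with h | h
      · rw [hlt k l h] at h1
        rw [hlt k' l h] at h2
        exact hz.2 k k' l h h1 h2
      · have e : l = c := Fin.ext h
        rw [e] at h1 h2
        rw [hcol k h1, hcol k' h2]

theorem elim_aux (y : Matrix (Fin n) (Fin n) F) : ∀ m : ℕ, m ≤ n →
    ∃ u v : UT n F, Mono m (mt u * y * mt v) := by
  intro m
  induction m with
  | zero =>
    intro _
    exact ⟨1, 1, fun k l l' h => absurd h (Nat.not_lt_zero _), fun k k' l h =>
      absurd h (Nat.not_lt_zero _)⟩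
  | succ m ih =>
    intro hm
    obtain ⟨u, v, hz⟩ := ih (by omega)
    obtain ⟨v', h1, h2⟩ := stepA (by omega) _ hz
    have hz' : Mono m (mt u * y * mt v * mt v') := by
      constructor
      · intro k l l' hl hl' h3 h4
        rw [h1 k l hl] at h3
        rw [h1 k l' hl'] at h4
        exact hz.1 k l l' hl hl' h3 h4
      · intro k k' l hl h3 h4
        rw [h1 k l hl] at h3
        rw [h1 k' l hl] at h4
        exact hz.2 k k' l hl h3 h4
    obtain ⟨u', h3⟩ := stepB (by omega) _ hz' (by
      rintro k ⟨r, hr, hne⟩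
      rw [h1 k r hr] at hne
      exact h2 k ⟨r, hr, hne⟩)
    refine ⟨u' * u, v * v', ?_⟩
    have e : mt (u' * u) * y * mt (v * v') = mt u' * (mt u * y * mt v * mt v') := by
      rw [mt_mul, mt_mul]
      simp only [mul_assoc]
    rw [e]
    exact h3

/-- Every element of `𝔫` is a two-sided translate of a matrix with at most one nonzero entry in
each row and each column. -/
theorem elim (y : NN n F) : ∃ u v : UT n F,
    (∀ k l l' : Fin n, (tw u v y).1 k l ≠ 0 → (tw u v y).1 k l' ≠ 0 → l = l') ∧
    ∀ k k' l : Fin n, (tw u v y).1 k l ≠ 0 → (tw u v y).1 k' l ≠ 0 → k = k' := by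
  obtain ⟨u, v, h1, h2⟩ := elim_aux y.1 n le_rfl
  exact ⟨u, v, fun k l l' h h' => h1 k l l' l.2 l'.2 h h', fun k k' l h h' => h2 k k' l l.2 h h'⟩

end Pool.Agent.Q99.SC
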