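import Pool.Agent.Q99.SC.UT
import Pool.Agent.Q99.SC.Abs

/-!
# The Fourier functions of the two-sided orbits form a system of central idempotents
-/

set_option autoImplicit false
set_option linter.style.haveILetI false

open scoped BigOperators Classical
open Pool.Agent.Helper884 Pool.Agent.H254R3.IN

noncomputable section

namespace Pool.Agent.Q99.SC

variable {n : ℕ} {F : Type} [Field F] [Finite F]

/-- The dual space of `𝔫`. -/
abbrev DD (n : ℕ) (F : Type) [Field F] : Type := Module.Dual F (NN n F)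

instance : Finite (NN n F) := inferInstance
instance : Finite (DD n F) := Finite.of_injective (fun f : DD n F => (f : NN n F → F))
  DFunLike.coe_injective
instance : Finite (UT n F) := inferInstance

instance fNN : Fintype (NN n F) := Fintype.ofFinite _
instance fDD : Fintype (DD n F) := Fintype.ofFinite _
instance fUT : Fintype (UT n F) := Fintype.ofFinite _

theorem card_DD : Nat.card (DD n F) = Nat.card (UT n F) := by
  rw [Nat.card_congr (dlEquiv n F)]
  haveI : Fintype F := Fintype.ofFinite _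
  rw [Nat.card_eq_fintype_card, Nat.card_eq_fintype_card,
    Module.card_eq_pow_finrank (K := F) (V := DD n F),
    Module.card_eq_pow_finrank (K := F) (V := NN n F), Subspace.dual_finrank_eq]

/-- sums over the group are sums over `𝔫` -/
theorem sum_UT {M : Type} [AddCommMonoid M] (φ : NN n F → M) :
    ∑ g : UT n F, φ (dl g) = ∑ x : NN n F, φ x :=
  Fintype.sum_equiv (dlEquiv n F) _ _ fun _ => rfl

section orth

variable {θ : AddChar F ℂ} (hθ : θ ≠ 1)

include hθ

theorem exists_theta : ∃ a : F, θ a ≠ 1 := AddChar.ne_one_iff.mp hθ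

theorem sum_NN (μ : DD n F) : ∑ x : NN n F, θ (μ x) = if μ = 0 then (Nat.card (UT n F) : ℂ) else 0 := by
  split_ifs with h
  · subst h
    simp only [LinearMap.zero_apply, AddChar.map_zero_eq_one, Finset.sum_const, Finset.card_univ,
      nsmul_eq_mul, mul_one]
    rw [Nat.card_congr (dlEquiv n F), Nat.card_eq_fintype_card]
  · obtain ⟨y, hy⟩ : ∃ y, μ y ≠ 0 := by
      by_contra hn
      push Not at hn
      exact h (LinearMap.ext hn)
    obtain ⟨a, ha⟩ := exists_theta hθ
    have h1 : μ ((a / μ y) • y) = a := by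
      rw [map_smul, smul_eq_mul, div_mul_cancel₀ _ hy]
    have h2 : ∑ x : NN n F, θ (μ x) = ∑ x : NN n F, θ (μ (x + (a / μ y) • y)) :=
      (Fintype.sum_equiv (Equiv.addRight ((a / μ y) • y)) _ _ fun x => rfl).symm
    simp only [map_add, h1, AddChar.map_add_eq_mul] at h2
    rw [← Finset.sum_mul] at h2
    have h3 : (∑ x : NN n F, θ (μ x)) * (θ a - 1) = 0 := by rw [mul_sub, ← h2]; ring
    exact (mul_eq_zero.mp h3).resolve_right (sub_ne_zero.mpr ha)

theorem sum_DD (x : NN n F) : ∑ μ : DD n F, θ (μ x) = if x = 0 then (Nat.card (UT n F) : ℂ) else 0 := by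
  split_ifs with h
  · subst h
    simp only [map_zero, AddChar.map_zero_eq_one, Finset.sum_const, Finset.card_univ,
      nsmul_eq_mul, mul_one]
    rw [← card_DD, Nat.card_eq_fintype_card]
  · obtain ⟨ν, hν⟩ : ∃ ν : DD n F, ν x ≠ 0 := by
      by_contra hn
      push Not at hn
      exact h ((Module.forall_dual_apply_eq_zero_iff F x).mp hn)
    obtain ⟨a, ha⟩ := exists_theta hθ
    have h1 : ((a / ν x) • ν) x = a := by
      rw [LinearMap.smul_apply, smul_eq_mul, div_mul_cancel₀ _ hν]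
    have h2 : ∑ μ : DD n F, θ (μ x) = ∑ μ : DD n F, θ ((μ + (a / ν x) • ν) x) :=
      (Fintype.sum_equiv (Equiv.addRight ((a / ν x) • ν)) _ _ fun x => rfl).symm
    simp only [LinearMap.add_apply, h1, AddChar.map_add_eq_mul] at h2
    rw [← Finset.sum_mul] at h2
    have h3 : (∑ μ : DD n F, θ (μ x)) * (θ a - 1) = 0 := by rw [mul_sub, ← h2]; ring
    exact (mul_eq_zero.mp h3).resolve_right (sub_ne_zero.mpr ha)

end orth

/-- The two-sided orbit relation on `𝔫^*`. -/
def rel (μ ν : DD n F) : Prop := ∃ u v : UT n F, ν = μ ∘ₗ tw u v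

theorem comp_tw (μ : DD n F) (u v u' v' : UT n F) :
    (μ ∘ₗ tw u v) ∘ₗ tw u' v' = μ ∘ₗ tw (u * u') (v' * v) := by
  apply LinearMap.ext
  intro y
  simp only [LinearMap.comp_apply, tw_tw]

theorem comp_one (μ : DD n F) : μ ∘ₗ tw 1 1 = μ := by
  apply LinearMap.ext
  intro y
  simp only [LinearMap.comp_apply, tw_one]

/-- The setoid of the two-sided orbits on `𝔫^*`. -/
def stD (n : ℕ) (F : Type) [Field F] [Finite F] : Setoid (DD n F) where
  r := rel
  iseqv :=
    { refl := fun μ => ⟨1, 1, (comp_one μ).symm⟩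
      symm := by
        rintro μ ν ⟨u, v, rfl⟩
        exact ⟨u⁻¹, v⁻¹, by rw [comp_tw, mul_inv_cancel, inv_mul_cancel, comp_one]⟩
      trans := by
        rintro μ ν κ ⟨u, v, rfl⟩ ⟨u', v', rfl⟩
        exact ⟨u * u', v' * v, by rw [comp_tw]⟩ }

/-- The two-sided orbits on `𝔫^*`. -/
abbrev QD (n : ℕ) (F : Type) [Field F] [Finite F] : Type := Quotient (stD n F)

instance fQD : Fintype (QD n F) := Fintype.ofFinite _

/-- The orbit of a functional. -/
def qD (μ : DD n F) : QD n F := Quotient.mk (stD n F) μ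

theorem qD_eq {μ ν : DD n F} : qD μ = qD ν ↔ rel μ ν := Quotient.eq (r := stD n F)

theorem qD_tw (μ : DD n F) (u v : UT n F) : qD (μ ∘ₗ tw u v) = qD μ :=
  (qD_eq.mpr ⟨u, v, rfl⟩).symm

/-- The set of functionals in an orbit. -/
def oD (i : QD n F) : Finset (DD n F) := Finset.univ.filter fun ν => qD ν = i

theorem mem_oD {i : QD n F} {ν : DD n F} : ν ∈ oD i ↔ qD ν = i := by simp [oD]

theorem sum_oD_tw {M : Type} [AddCommMonoid M] (i : QD n F) (u v : UT n F) (φ : DD n F → M) :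
    ∑ ν ∈ oD i, φ (ν ∘ₗ tw u v) = ∑ ν ∈ oD i, φ ν := by
  refine Finset.sum_nbij' (fun ν => ν ∘ₗ tw u v) (fun ν => ν ∘ₗ tw u⁻¹ v⁻¹) ?_ ?_ ?_ ?_ ?_
  · intro ν hν; rw [mem_oD] at hν ⊢; rw [qD_tw]; exact hν
  · intro ν hν; rw [mem_oD] at hν ⊢; rw [qD_tw]; exact hν
  · intro ν _
    change (ν ∘ₗ tw u v) ∘ₗ tw u⁻¹ v⁻¹ = ν
    rw [comp_tw, mul_inv_cancel, inv_mul_cancel, comp_one]
  · intro ν _
    change (ν ∘ₗ tw u⁻¹ v⁻¹) ∘ₗ tw u v = ν
    rw [comp_tw, inv_mul_cancel, mul_inv_cancel, comp_one]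
  · intro ν _; rfl

/-- The functions `g ↦ ∑_{ν ∈ O} θ(ν(g - 1))`. -/
def ff (θ : AddChar F ℂ) (i : QD n F) (g : UT n F) : ℂ := ∑ ν ∈ oD i, θ (ν (dl g))

theorem ff_tw (θ : AddChar F ℂ) (i : QD n F) (g g' u v : UT n F) (h : dl g' = tw u v (dl g)) :
    ff θ i g' = ff θ i g := by
  unfold ff
  rw [h]
  exact sum_oD_tw i u v fun ν => θ (ν (dl g))

theorem ff_cl (θ : AddChar F ℂ) (i : QD n F) : IsCl (ff θ i) := by
  intro g y
  exact ff_tw θ i g _ y y⁻¹ (dl_conj y g)

/-- The coefficients of the convolution with `ff`. -/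
def cf (θ : AddChar F ℂ) (φ : UT n F → ℂ) (ν : DD n F) : ℂ := ∑ x, φ x * θ (-ν (dl x))

theorem conv_ff (θ : AddChar F ℂ) (φ : UT n F → ℂ) (i : QD n F) (g : UT n F) :
    conv φ (ff θ i) g = ∑ ν ∈ oD i, cf θ φ ν * θ (ν (dl g)) := by
  unfold conv
  have h1 : ∀ x : UT n F, ff θ i (x⁻¹ * g) = ∑ ν ∈ oD i, θ (ν (dl g)) * θ (-ν (dl x)) := by
    intro x
    unfold ff
    rw [dl_inv_mul]
    have h2 := sum_oD_tw i x⁻¹ 1 fun ν => θ (ν (dl g - dl x))
    simp only [LinearMap.comp_apply] at h2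
    rw [h2]
    refine Finset.sum_congr rfl fun ν _ => ?_
    rw [map_sub, sub_eq_add_neg, AddChar.map_add_eq_mul]
  simp only [h1, cf, Finset.sum_mul, Finset.mul_sum]
  rw [Finset.sum_comm]
  refine Finset.sum_congr rfl fun ν _ => Finset.sum_congr rfl fun x _ => ?_
  ring

theorem cf_ff {θ : AddChar F ℂ} (hθ : θ ≠ 1) (i : QD n F) (ν : DD n F) :
    cf θ (ff θ i) ν = if qD ν = i then (Nat.card (UT n F) : ℂ) else 0 := by
  unfold cf ff
  simp only [Finset.sum_mul]
  rw [Finset.sum_comm]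
  have h1 : ∀ κ ∈ oD i, ∑ x : UT n F, θ (κ (dl x)) * θ (-ν (dl x)) =
      if κ = ν then (Nat.card (UT n F) : ℂ) else 0 := by
    intro κ _
    have h2 := sum_UT fun x : NN n F => θ (κ x) * θ (-ν x)
    have h3 : ∀ x : NN n F, θ (κ x) * θ (-ν x) = θ ((κ - ν) x) := by
      intro x
      rw [← AddChar.map_add_eq_mul, LinearMap.sub_apply, sub_eq_add_neg]
    rw [h2]
    simp only [h3]
    rw [sum_NN hθ]
    simp only [sub_eq_zero]
  rw [Finset.sum_congr rfl h1, Finset.sum_ite_eq' (oD i) ν]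
  simp only [mem_oD]

theorem ff_one (θ : AddChar F ℂ) (i : QD n F) : ff θ i 1 = (oD i).card := by
  unfold ff
  rw [dl_one]
  simp

theorem oD_nonempty (i : QD n F) : (oD i).Nonempty := by
  obtain ⟨μ, rfl⟩ := Quotient.exists_rep i
  exact ⟨μ, mem_oD.mpr rfl⟩

theorem sys_ff {θ : AddChar F ℂ} (hθ : θ ≠ 1) : Sys (QD n F) (ff θ) where
  cl := ff_cl θ
  orth := by
    intro i j hij
    funext g
    rw [conv_ff]
    apply Finset.sum_eq_zero
    intro ν hν
    rw [mem_oD] at hν
    rw [cf_ff hθ, if_neg (by rw [hν]; exact hij.symm), zero_mul]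
  idem := by
    intro i
    funext g
    rw [conv_ff]
    unfold ff
    rw [Finset.mul_sum]
    refine Finset.sum_congr rfl fun ν hν => ?_
    rw [mem_oD] at hν
    have := cf_ff hθ i ν
    unfold ff at this
    rw [this, if_pos hν]
  sum := by
    intro g
    unfold ff oD
    rw [Finset.sum_fiberwise, sum_DD hθ]
    unfold Pool.Agent.H254R3.IN.dl
    have : dl g = 0 ↔ g = 1 := by
      constructor
      · intro h
        apply dl_inj
        rw [h, dl_one]
      · rintro rfl
        exact dl_one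
    simp only [this]
    split_ifs <;> simp
  ne := by
    intro i h
    have h1 := congrFun h 1
    rw [ff_one] at h1
    have h2 := (oD_nonempty i).card_pos
    have h3 : ((oD i).card : ℂ) = 0 := h1
    rw [Nat.cast_eq_zero] at h3
    omega

end Pool.Agent.Q99.SC
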