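import Pool.Agent.Q99.SC.Box
import Pool.Agent.Q99.SC.Card
import Pool.Agent.Q99.SC.Elim

/-!
# Single-box characters separate the superclasses
-/

set_option autoImplicit false
set_option linter.style.haveILetI false

open scoped BigOperators Classical

noncomputable section

namespace Pool.Agent.Q99.SC

variable {n : ℕ} {F : Type} [Field F] [Finite F]

/-- The sum over the group of the translates of `θ ∘ μ`. -/
def SS (θ : AddChar F ℂ) (μ : DD n F) (y : NN n F) : ℂ :=
  ∑ u : UT n F, ∑ v : UT n F, θ (μ (tw u v y))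

theorem SS_tw (θ : AddChar F ℂ) (μ : DD n F) (u₀ v₀ : UT n F) (y : NN n F) :
    SS θ (μ ∘ₗ tw u₀ v₀) y = SS θ μ y := by
  unfold SS
  simp only [LinearMap.comp_apply, tw_tw]
  refine Fintype.sum_equiv (Equiv.mulLeft u₀) _ _ fun u => ?_
  refine Fintype.sum_equiv (Equiv.mulRight v₀) _ _ fun v => ?_
  rfl

theorem ff_mk (θ : AddChar F ℂ) (i : QD n F) (y : NN n F) :
    ff θ i (mk y) = ∑ ν ∈ oD i, θ (ν y) := by
  unfold ff
  rw [dl_mk]

/-- The orbit sum in terms of the group sum. -/
theorem card_mul_SS (θ : AddChar F ℂ) (μ : DD n F) (y : NN n F) :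
    ((oD (qD μ)).card : ℂ) * SS θ μ y =
      (Nat.card (UT n F) : ℂ) * ((Nat.card (UT n F) : ℂ) * ff θ (qD μ) (mk y)) := by
  have h1 : ∀ ν ∈ oD (qD μ), SS θ ν y = SS θ μ y := by
    intro ν hν
    rw [mem_oD] at hν
    obtain ⟨u, v, rfl⟩ := qD_eq.mp hν.symm
    exact SS_tw θ μ u v y
  have h2 : ∑ ν ∈ oD (qD μ), SS θ ν y = ((oD (qD μ)).card : ℂ) * SS θ μ y := by
    rw [Finset.sum_congr rfl h1, Finset.sum_const, nsmul_eq_mul]
  rw [← h2]
  unfold SS
  rw [Finset.sum_comm]
  have h3 : ∀ u : UT n F, ∑ ν ∈ oD (qD μ), ∑ v : UT n F, θ (ν (tw u v y)) =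
      (Nat.card (UT n F) : ℂ) * ff θ (qD μ) (mk y) := by
    intro u
    rw [Finset.sum_comm]
    have h4 : ∀ v : UT n F, ∑ ν ∈ oD (qD μ), θ (ν (tw u v y)) = ff θ (qD μ) (mk y) := by
      intro v
      rw [ff_mk]
      exact sum_oD_tw (qD μ) u v fun ν => θ (ν y)
    rw [Finset.sum_congr rfl fun v _ => h4 v, Finset.sum_const, nsmul_eq_mul, Finset.card_univ,
      Nat.card_eq_fintype_card]
  rw [Finset.sum_congr rfl fun u _ => h3 u, Finset.sum_const, nsmul_eq_mul, Finset.card_univ,
    Nat.card_eq_fintype_card]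

theorem SS_eq_of_ff {θ : AddChar F ℂ} {μ : DD n F} {y y' : NN n F}
    (h : ff θ (qD μ) (mk y) = ff θ (qD μ) (mk y')) : SS θ μ y = SS θ μ y' := by
  have h1 := card_mul_SS θ μ y
  rw [h, ← card_mul_SS θ μ y'] at h1
  have h2 : ((oD (qD μ)).card : ℂ) ≠ 0 := by
    exact_mod_cast (oD_nonempty (qD μ)).card_pos.ne'
  exact mul_left_cancel₀ h2 h1

/-- The entries strictly inside of the box `(i,j)`. -/
def ins (i j : Fin n) (y : NN n F) : NN n F :=
  ⟨fun k l => if i < k ∧ l < j then y.1 k l else 0, fun k l h => by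
    change (if i < k ∧ l < j then y.1 k l else 0) = 0
    split_ifs
    · exact y.2 k l h
    · rfl⟩

theorem ins_apply (i j : Fin n) (y : NN n F) (k l : Fin n) :
    (ins i j y).1 k l = if i < k ∧ l < j then y.1 k l else 0 := rfl

/-- The entry `(i,j)` of `u y v` when the hook of `(i,j)` is empty. -/
theorem entry_eq {i j : Fin n} (hij : i < j) (y : NN n F) (h1 : ∀ l, i < l → l < j → y.1 i l = 0)
    (h2 : ∀ k, i < k → k < j → y.1 k j = 0) (u v : UT n F) :
    (tw u v y).1 i j = y.1 i j + (tw u v (ins i j y)).1 i j := by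
  have key : (mt u * (y.1 - (ins i j y).1) * mt v) i j = y.1 i j := by
    rw [Matrix.mul_apply, Finset.sum_eq_single j]
    · rw [mt_diag, mul_one, Matrix.mul_apply, Finset.sum_eq_single i]
      · rw [mt_diag, one_mul, Matrix.sub_apply, ins_apply,
          if_neg (fun h => absurd h.1 (lt_irrefl _)), sub_zero]
      · intro k _ hk
        rw [Matrix.sub_apply, ins_apply, if_neg (fun h => absurd h.2 (lt_irrefl _)), sub_zero]
        rcases lt_or_gt_of_ne hk with h | h
        · rw [mt_low u h, zero_mul]
        · rcases lt_or_ge k j with h' | h'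
          · rw [h2 k h h', mul_zero]
          · rw [y.2 k j h', mul_zero]
      · intro h; exact absurd (Finset.mem_univ _) h
    · intro l _ hl
      rcases lt_or_gt_of_ne hl with h | h
      · have : (mt u * (y.1 - (ins i j y).1)) i l = 0 := by
          rw [Matrix.mul_apply]
          apply Finset.sum_eq_zero
          intro k _
          rw [Matrix.sub_apply, ins_apply]
          rcases lt_trichotomy k i with h' | h' | h'
          · rw [mt_low u h', zero_mul]
          · subst h'
            rw [if_neg (fun h => absurd h.1 (lt_irrefl _)), sub_zero]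
            rcases lt_or_ge k l with h'' | h''
            · rw [h1 l h'' h, mul_zero]
            · rw [y.2 k l h'', mul_zero]
          · rw [if_pos ⟨h', h⟩, sub_self, mul_zero]
        rw [this, zero_mul]
      · rw [mt_low v h, mul_zero]
    · intro h; exact absurd (Finset.mem_univ _) h
  rw [tw_coe, tw_coe]
  rw [mul_sub, sub_mul, Matrix.sub_apply, sub_eq_iff_eq_add] at key
  exact key

/-- The functional `x ↦ a (u y x)_{ij}`. -/
def lam (i j : Fin n) (a : F) (u : UT n F) (y : NN n F) : DD n F where
  toFun x := a * (mt u * y.1 * x.1) i j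
  map_add' x x' := by
    change a * (mt u * y.1 * (x.1 + x'.1)) i j = _
    rw [mul_add (mt u * y.1), Matrix.add_apply, mul_add]
  map_smul' c x := by
    change a * (mt u * y.1 * (c • x.1)) i j = c * (a * (mt u * y.1 * x.1) i j)
    rw [Matrix.mul_smul, Matrix.smul_apply, smul_eq_mul]
    ring

theorem T_ne_zero {θ : AddChar F ℂ} (hθ : θ ≠ 1) (i j : Fin n) (a : F) (y : NN n F) :
    SS θ (bx i j a) (ins i j y) ≠ 0 := by
  have h1 : ∀ u v : UT n F, bx i j a (tw u v (ins i j y)) = lam i j a u (ins i j y) (dl v) := by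
    intro u v
    change a * (mt u * (ins i j y).1 * mt v) i j = a * (mt u * (ins i j y).1 * (mt v - 1)) i j
    rw [mul_sub, mul_one, Matrix.sub_apply]
    have : (mt u * (ins i j y).1) i j = 0 := by
      rw [Matrix.mul_apply]
      apply Finset.sum_eq_zero
      intro k _
      rw [ins_apply, if_neg (fun h => absurd h.2 (lt_irrefl _)), mul_zero]
    rw [this, sub_zero]
  unfold SS
  simp only [h1]
  have h2 : ∀ u : UT n F, ∑ v : UT n F, θ (lam i j a u (ins i j y) (dl v)) =
      if lam i j a u (ins i j y) = 0 then (Nat.card (UT n F) : ℂ) else 0 := by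
    intro u
    rw [sum_UT fun x : NN n F => θ (lam i j a u (ins i j y) x), sum_NN hθ]
  rw [Finset.sum_congr rfl fun u _ => h2 u, ← Finset.sum_filter, Finset.sum_const, nsmul_eq_mul]
  apply mul_ne_zero _ cardG_ne
  have h3 : lam i j a 1 (ins i j y) = 0 := by
    apply LinearMap.ext
    intro x
    change a * (mt (1 : UT n F) * (ins i j y).1 * x.1) i j = 0
    rw [mt_one, one_mul, Matrix.mul_apply, Finset.sum_eq_zero, mul_zero]
    intro k _
    rw [ins_apply, if_neg (fun h => absurd h.1 (lt_irrefl _)), zero_mul]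
  have h4 : (1 : UT n F) ∈ Finset.univ.filter fun u : UT n F => lam i j a u (ins i j y) = 0 := by
    simp [h3]
  exact_mod_cast (Finset.card_pos.mpr ⟨_, h4⟩).ne'

/-- Matrices with at most one nonzero entry in each row and column are determined by the values of
the single-box characters. -/
theorem mono_eq {θ : AddChar F ℂ} (hθ : θ ≠ 1) {y y' : NN n F}
    (hy1 : ∀ k l l' : Fin n, y.1 k l ≠ 0 → y.1 k l' ≠ 0 → l = l')
    (hy2 : ∀ k k' l : Fin n, y.1 k l ≠ 0 → y.1 k' l ≠ 0 → k = k')
    (hy1' : ∀ k l l' : Fin n, y'.1 k l ≠ 0 → y'.1 k l' ≠ 0 → l = l')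
    (hy2' : ∀ k k' l : Fin n, y'.1 k l ≠ 0 → y'.1 k' l ≠ 0 → k = k')
    (h : ∀ i j : Fin n, i < j → ∀ a : F, a ≠ 0 →
      SS θ (bx i j a) y = SS θ (bx i j a) y') : y = y' := by
  have key : ∀ d : ℕ, ∀ i j : Fin n, j.val - i.val = d → y.1 i j = y'.1 i j := by
    intro d
    induction d using Nat.strong_induction_on with
    | _ d ih =>
      intro i j hd
      rcases le_or_gt j i with hij | hij
      · rw [y.2 i j hij, y'.2 i j hij]
      by_cases hA : ∃ l, i < l ∧ l < j ∧ y.1 i l ≠ 0
      · obtain ⟨l, h1, h2, h3⟩ := hA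
        have h4 : y'.1 i l ≠ 0 := by
          rw [← ih (l.val - i.val) (by
            have : i.val < l.val := h1
            have : l.val < j.val := h2
            omega) i l rfl]
          exact h3
        have h5 : y.1 i j = 0 := by
          by_contra hne
          exact absurd (hy1 i l j h3 hne) h2.ne
        have h6 : y'.1 i j = 0 := by
          by_contra hne
          exact absurd (hy1' i l j h4 hne) h2.ne
        rw [h5, h6]
      by_cases hB : ∃ k, i < k ∧ k < j ∧ y.1 k j ≠ 0
      · obtain ⟨k, h1, h2, h3⟩ := hB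
        have h4 : y'.1 k j ≠ 0 := by
          rw [← ih (j.val - k.val) (by
            have : i.val < k.val := h1
            have : k.val < j.val := h2
            omega) k j rfl]
          exact h3
        have h5 : y.1 i j = 0 := by
          by_contra hne
          exact absurd (hy2 k i j h3 hne) h1.ne'
        have h6 : y'.1 i j = 0 := by
          by_contra hne
          exact absurd (hy2' k i j h4 hne) h1.ne'
        rw [h5, h6]
      push Not at hA hB
      have hA' : ∀ l, i < l → l < j → y'.1 i l = 0 := by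
        intro l h1 h2
        rw [← ih (l.val - i.val) (by
            have : i.val < l.val := h1
            have : l.val < j.val := h2
            omega) i l rfl]
        exact hA l h1 h2
      have hB' : ∀ k, i < k → k < j → y'.1 k j = 0 := by
        intro k h1 h2
        rw [← ih (j.val - k.val) (by
            have : i.val < k.val := h1
            have : k.val < j.val := h2
            omega) k j rfl]
        exact hB k h1 h2
      have hins : ins i j y = ins i j y' := by
        apply Subtype.ext
        ext k l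
        rw [ins_apply, ins_apply]
        by_cases hkl : i < k ∧ l < j
        · rw [if_pos hkl, if_pos hkl]
          rcases le_or_gt l k with h' | h'
          · rw [y.2 k l h', y'.2 k l h']
          · exact ih (l.val - k.val) (by
              have : i.val < k.val := hkl.1
              have : l.val < j.val := hkl.2
              have : k.val < l.val := h'
              omega) k l rfl
        · rw [if_neg hkl, if_neg hkl]
      have hS : ∀ (a : F) (z : NN n F), (∀ l, i < l → l < j → z.1 i l = 0) →
          (∀ k, i < k → k < j → z.1 k j = 0) →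
          SS θ (bx i j a) z = θ (a * z.1 i j) * SS θ (bx i j a) (ins i j z) := by
        intro a z h1 h2
        unfold SS
        rw [Finset.mul_sum]
        refine Finset.sum_congr rfl fun u _ => ?_
        rw [Finset.mul_sum]
        refine Finset.sum_congr rfl fun v _ => ?_
        rw [← AddChar.map_add_eq_mul]
        congr 1
        change a * (tw u v z).1 i j = a * z.1 i j + a * (tw u v (ins i j z)).1 i j
        rw [entry_eq hij z h1 h2 u v]
        ring
      by_contra hne
      obtain ⟨b, hb⟩ := exists_theta hθ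
      have hb0 : b ≠ 0 := by
        rintro rfl
        exact hb (AddChar.map_zero_eq_one θ)
      have ht : y.1 i j - y'.1 i j ≠ 0 := sub_ne_zero.mpr hne
      have h1 := h i j hij (b / (y.1 i j - y'.1 i j)) (div_ne_zero hb0 ht)
      rw [hS _ y hA hB, hS _ y' hA' hB', ← hins] at h1
      have h2 := mul_right_cancel₀ (T_ne_zero hθ i j _ y) h1
      apply hb
      have h3 : b = b / (y.1 i j - y'.1 i j) * y.1 i j - b / (y.1 i j - y'.1 i j) * y'.1 i j := by
        rw [← mul_sub, div_mul_cancel₀ _ ht]
      rw [h3, sub_eq_add_neg, AddChar.map_add_eq_mul, h2, ← AddChar.map_add_eq_mul, add_neg_cancel,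
        AddChar.map_zero_eq_one]
  apply Subtype.ext
  ext i j
  exact key _ i j rfl

/-- The single-box characters separate the superclasses. -/
theorem sep_box {θ : AddChar F ℂ} (hθ : θ ≠ 1) {g h : UT n F}
    (H : ∀ i j : Fin n, i < j → ∀ a : F, a ≠ 0 →
      ff θ (qD (bx i j a)) g = ff θ (qD (bx i j a)) h) : relK g h := by
  obtain ⟨u, v, h1, h2⟩ := elim (dl g)
  obtain ⟨u', v', h1', h2'⟩ := elim (dl h)
  have e1 : ∀ i : QD n F, ff θ i (mk (tw u v (dl g))) = ff θ i g := fun i =>
    ff_tw θ i g _ u v (dl_mk _)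
  have e2 : ∀ i : QD n F, ff θ i (mk (tw u' v' (dl h))) = ff θ i h := fun i =>
    ff_tw θ i h _ u' v' (dl_mk _)
  have h3 : tw u v (dl g) = tw u' v' (dl h) := by
    apply mono_eq hθ h1 h2 h1' h2'
    intro i j hij a ha
    apply SS_eq_of_ff
    rw [e1, e2, H i j hij a ha]
  refine ⟨u'⁻¹ * u, v * v'⁻¹, ?_⟩
  rw [← tw_tw, h3, tw_inv_left]

end Pool.Agent.Q99.SC
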