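import Mathlib

/-!
# The group of unitriangular matrices and the two-sided actions
-/

set_option autoImplicit false

open scoped BigOperators

namespace Pool.Agent.Q99.SC

variable {n : ℕ} {F : Type} [Field F] [Finite F]

/-- The group `U_n(F)` of the upper unitriangular `n × n` matrices over the finite field `F`. -/
def UT (n : ℕ) (F : Type) [Field F] [Finite F] : Subgroup (Matrix.SpecialLinearGroup (Fin n) F) where
  carrier := {g | (∀ i, g.1 i i = 1) ∧ ∀ i j, j < i → g.1 i j = 0}
  one_mem' := ⟨fun i => Matrix.one_apply_eq i, fun i j h => Matrix.one_apply_ne h.ne'⟩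
  mul_mem' := by
    rintro a b ⟨ha1, ha2⟩ ⟨hb1, hb2⟩
    constructor
    · intro i
      rw [Matrix.SpecialLinearGroup.coe_mul, Matrix.mul_apply, Finset.sum_eq_single i, ha1, hb1,
        one_mul]
      · intro k _ hk
        rcases lt_or_gt_of_ne hk with h | h
        · rw [ha2 i k h, zero_mul]
        · rw [hb2 k i h, mul_zero]
      · intro h; exact absurd (Finset.mem_univ i) h
    · intro i j hij
      rw [Matrix.SpecialLinearGroup.coe_mul, Matrix.mul_apply]
      apply Finset.sum_eq_zero
      intro k _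
      rcases lt_or_ge k i with h | h
      · rw [ha2 i k h, zero_mul]
      · rw [hb2 k j (hij.trans_le h), mul_zero]
  inv_mem' := by
    intro a ha
    have h1 : a⁻¹ = a ^ (orderOf a - 1) := by
      rw [inv_eq_iff_mul_eq_one, ← pow_succ', Nat.sub_add_cancel (orderOf_pos a), pow_orderOf_eq_one]
    rw [h1]
    generalize orderOf a - 1 = k
    induction k with
    | zero =>
      rw [pow_zero]
      exact ⟨fun i => Matrix.one_apply_eq i, fun i j h => Matrix.one_apply_ne h.ne'⟩
    | succ k ih =>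
      rw [pow_succ]
      obtain ⟨ha1, ha2⟩ := ih
      obtain ⟨hb1, hb2⟩ := ha
      constructor
      · intro i
        rw [Matrix.SpecialLinearGroup.coe_mul, Matrix.mul_apply, Finset.sum_eq_single i, ha1, hb1,
          one_mul]
        · intro k _ hk
          rcases lt_or_gt_of_ne hk with h | h
          · rw [ha2 i k h, zero_mul]
          · rw [hb2 k i h, mul_zero]
        · intro h; exact absurd (Finset.mem_univ i) h
      · intro i j hij
        rw [Matrix.SpecialLinearGroup.coe_mul, Matrix.mul_apply]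
        apply Finset.sum_eq_zero
        intro k _
        rcases lt_or_ge k i with h | h
        · rw [ha2 i k h, zero_mul]
        · rw [hb2 k j (hij.trans_le h), mul_zero]

/-- The matrix of an element of `U_n(F)`. -/
def mt (g : UT n F) : Matrix (Fin n) (Fin n) F := g.1.1

theorem mt_diag (g : UT n F) (i : Fin n) : mt g i i = 1 := g.2.1 i

theorem mt_low (g : UT n F) {i j : Fin n} (h : j < i) : mt g i j = 0 := g.2.2 i j h

theorem mt_mul (g h : UT n F) : mt (g * h) = mt g * mt h := rfl

theorem mt_one : mt (1 : UT n F) = 1 := rfl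

theorem mt_inv_mul (g : UT n F) : mt g⁻¹ * mt g = 1 := by
  rw [← mt_mul, inv_mul_cancel, mt_one]

theorem mt_mul_inv (g : UT n F) : mt g * mt g⁻¹ = 1 := by
  rw [← mt_mul, mul_inv_cancel, mt_one]

theorem mt_inj {g h : UT n F} (e : mt g = mt h) : g = h := Subtype.ext (Subtype.ext e)

/-- The space `𝔫` of the strictly upper triangular matrices. -/
def NN (n : ℕ) (F : Type) [Field F] : Submodule F (Matrix (Fin n) (Fin n) F) where
  carrier := {x | ∀ i j, j ≤ i → x i j = 0}
  add_mem' := by
    intro a b ha hb i j h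
    rw [Matrix.add_apply, ha i j h, hb i j h, add_zero]
  zero_mem' := fun i j _ => rfl
  smul_mem' := by
    intro c a ha i j h
    rw [Matrix.smul_apply, ha i j h, smul_zero]

theorem mem_NN {x : Matrix (Fin n) (Fin n) F} : x ∈ NN n F ↔ ∀ i j, j ≤ i → x i j = 0 := Iff.rfl

theorem mul_mem_NN (u : UT n F) {y : Matrix (Fin n) (Fin n) F} (hy : y ∈ NN n F) :
    mt u * y ∈ NN n F := by
  intro i j hij
  rw [Matrix.mul_apply]
  apply Finset.sum_eq_zero
  intro k _
  rcases lt_or_ge k i with h | h
  · rw [mt_low u h, zero_mul]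
  · rw [hy k j (hij.trans h), mul_zero]

theorem mem_NN_mul (u : UT n F) {y : Matrix (Fin n) (Fin n) F} (hy : y ∈ NN n F) :
    y * mt u ∈ NN n F := by
  intro i j hij
  rw [Matrix.mul_apply]
  apply Finset.sum_eq_zero
  intro k _
  rcases lt_or_ge j k with h | h
  · rw [mt_low u h, mul_zero]
  · rw [hy i k (h.trans hij), zero_mul]

theorem sub_one_mem (g : UT n F) : mt g - 1 ∈ NN n F := by
  intro i j h
  rw [Matrix.sub_apply]
  rcases h.lt_or_eq with h | rfl
  · rw [mt_low g h, Matrix.one_apply_ne h.ne', sub_zero]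
  · rw [mt_diag, Matrix.one_apply_eq, sub_self]

/-- `g - 1` as an element of `𝔫`. -/
def dl (g : UT n F) : NN n F := ⟨mt g - 1, sub_one_mem g⟩

theorem det_one_add {x : Matrix (Fin n) (Fin n) F} (hx : x ∈ NN n F) : (1 + x).det = 1 := by
  rw [Matrix.det_of_upperTriangular]
  · apply Finset.prod_eq_one
    intro i _
    rw [Matrix.add_apply, Matrix.one_apply_eq, hx i i le_rfl, add_zero]
  · intro i j hij
    have h : j < i := hij
    rw [Matrix.add_apply, Matrix.one_apply_ne h.ne', hx i j h.le, add_zero]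

/-- The element `1 + x` of `U_n(F)`. -/
def mk (x : NN n F) : UT n F :=
  ⟨⟨1 + x.1, det_one_add x.2⟩, fun i => by
    change (1 + x.1) i i = 1
    rw [Matrix.add_apply, Matrix.one_apply_eq, x.2 i i le_rfl, add_zero], fun i j h => by
    change (1 + x.1) i j = 0
    rw [Matrix.add_apply, Matrix.one_apply_ne h.ne', x.2 i j h.le, add_zero]⟩

theorem mt_mk (x : NN n F) : mt (mk x) = 1 + x.1 := rfl

theorem dl_mk (x : NN n F) : dl (mk x) = x := by
  apply Subtype.ext
  change 1 + x.1 - 1 = x.1
  abel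

theorem mk_dl (g : UT n F) : mk (dl g) = g := by
  apply mt_inj
  rw [mt_mk]
  change 1 + (mt g - 1) = mt g
  abel

/-- The bijection `g ↦ g - 1`. -/
def dlEquiv (n : ℕ) (F : Type) [Field F] [Finite F] : UT n F ≃ NN n F where
  toFun := dl
  invFun := mk
  left_inv := mk_dl
  right_inv := dl_mk

/-- The map `y ↦ u y v` of `𝔫`. -/
def tw (u v : UT n F) : NN n F →ₗ[F] NN n F where
  toFun y := ⟨mt u * y.1 * mt v, mem_NN_mul v (mul_mem_NN u y.2)⟩
  map_add' a b := by
    apply Subtype.ext
    change mt u * (a.1 + b.1) * mt v = mt u * a.1 * mt v + mt u * b.1 * mt v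
    rw [mul_add, add_mul]
  map_smul' c a := by
    apply Subtype.ext
    change mt u * (c • a.1) * mt v = c • (mt u * a.1 * mt v)
    rw [Matrix.mul_smul, Matrix.smul_mul]

theorem tw_coe (u v : UT n F) (y : NN n F) : (tw u v y : Matrix (Fin n) (Fin n) F) =
    mt u * y.1 * mt v := rfl

theorem tw_tw (u v u' v' : UT n F) (y : NN n F) :
    tw u v (tw u' v' y) = tw (u * u') (v' * v) y := by
  apply Subtype.ext
  simp only [tw_coe, mt_mul, mul_assoc]

theorem tw_one (y : NN n F) : tw 1 1 y = y := by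
  apply Subtype.ext
  simp only [tw_coe, mt_one, one_mul, mul_one]

theorem tw_inv_left (u v : UT n F) (y : NN n F) : tw u⁻¹ v⁻¹ (tw u v y) = y := by
  rw [tw_tw, inv_mul_cancel, mul_inv_cancel, tw_one]

theorem tw_inv_right (u v : UT n F) (y : NN n F) : tw u v (tw u⁻¹ v⁻¹ y) = y := by
  rw [tw_tw, inv_mul_cancel, mul_inv_cancel, tw_one]

theorem dl_inv_mul (x g : UT n F) : dl (x⁻¹ * g) = tw x⁻¹ 1 (dl g - dl x) := by
  apply Subtype.ext
  rw [tw_coe, mt_one, mul_one]
  change mt (x⁻¹ * g) - 1 = mt x⁻¹ * ((mt g - 1) - (mt x - 1))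
  rw [mt_mul, mul_sub, mul_sub, mul_sub, mt_inv_mul]
  abel

theorem dl_conj (h g : UT n F) : dl (h * g * h⁻¹) = tw h h⁻¹ (dl g) := by
  apply Subtype.ext
  rw [tw_coe]
  change mt (h * g * h⁻¹) - 1 = mt h * (mt g - 1) * mt h⁻¹
  rw [mul_sub, sub_mul, mul_one, mt_mul_inv, mt_mul, mt_mul]

theorem dl_one : dl (1 : UT n F) = 0 := by
  apply Subtype.ext
  change mt (1 : UT n F) - 1 = 0
  rw [mt_one, sub_self]

theorem dl_inj {g h : UT n F} (e : dl g = dl h) : g = h := (dlEquiv n F).injective e

end Pool.Agent.Q99.SC
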